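import Pool.Agent.P.MP_1fec7a_co.JoinGraph

namespace Pool.Agent.Results.MP_1fec7a_co.Q1False

open Pool.Agent.P.MP_1fec7a_co

/-- Q1 is false, and by an unbounded margin: for every `c` there is a finite simple graph `G` of
reduced genus `g` and chromatic number `k` with `max (H g) (ω G + 1) + c < k`.
The case `c = 0` is the negated form of Q1. -/
theorem result : ∀ c : ℕ, ∃ (V : Type) (_ : Fintype V) (G : SimpleGraph V) (g k : ℕ),
    reducedGenus G = g ∧ G.chromaticNumber = (k : ℕ∞) ∧
    max (heawood g) ((G.cliqueNum : ℝ) + 1) + (c : ℝ) < (k : ℝ) :=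
  main

end Pool.Agent.Results.MP_1fec7a_co.Q1False
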