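import Pool.Agent.P.MP_1fec7a_co.K68.Cube

namespace Pool.Agent.Results.MP_1fec7a_co.Q2Range

open Pool.Agent.P.MP_1fec7a_co

/-- The set of pairs (reduced genus, chromatic number) of the counterexamples to Q2 is finite and
contains `(0, 4)`: Q2 is false as stated, and it holds for all large genus and for all large
chromatic number. -/
theorem result :
    let S : Set (ℕ × ℕ) := {p | ∃ (V : Type) (_ : Fintype V) (G : SimpleGraph V),
      CliquePartitioned G ∧ reducedGenus G = p.1 ∧ G.chromaticNumber = (p.2 : ℕ∞) ∧
        max (heawood p.1 - 1) (G.cliqueNum : ℝ) < (p.2 : ℝ)}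
    S.Finite ∧ (0, 4) ∈ S :=
  K68.q2range

end Pool.Agent.Results.MP_1fec7a_co.Q2Range
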