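import Pool.Agent.P.MP_1fec7a_co.F.Main

namespace Pool.Agent.Results.MP_1fec7a_co.SharpFourThirds

open Pool.Agent.P.MP_1fec7a_co

/-- The exact order of the function that can stand in Q1 in the place of `H(g)` is `4 g / 3`:
for large `g` every graph of reduced genus at most `g` has chromatic number at most
`max ((4 / 3 + ε) g) (ω + 1)`, and some has chromatic number above `max ((4 / 3 - ε) g) (ω + 1)`. -/
theorem result : ∀ ε : ℝ, 0 < ε → ∃ g₀ : ℕ, ∀ g ≥ g₀,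
    (∀ (V : Type) [Fintype V] (G : SimpleGraph V) (n : ℕ),
      reducedGenus G ≤ g → G.chromaticNumber = (n : ℕ∞) →
        (n : ℝ) ≤ max ((4 / 3 + ε) * (g : ℝ)) ((G.cliqueNum : ℝ) + 1)) ∧
    ∃ (V : Type) (_ : Fintype V) (G : SimpleGraph V) (n : ℕ),
      reducedGenus G ≤ g ∧ G.chromaticNumber = (n : ℕ∞) ∧
        max ((4 / 3 - ε) * (g : ℝ)) ((G.cliqueNum : ℝ) + 1) < (n : ℝ) := by
  intro ε hε
  obtain ⟨g₁, h₁⟩ := F.top ε hε
  obtain ⟨g₂, h₂⟩ := F.low ε hε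
  exact ⟨max g₁ g₂, fun g hg => ⟨h₁ g (le_of_max_le_left hg), h₂ g (le_of_max_le_right hg)⟩⟩

end Pool.Agent.Results.MP_1fec7a_co.SharpFourThirds
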