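import Pool.Agent.P.MP_1fec7a_co.S.Main

namespace Pool.Agent.Results.MP_1fec7a_co.SharpTwo

open Pool.Agent.P.MP_1fec7a_co

/-- The exact order of the function that can stand in Q2 in the place of `H(g) - 1` is `2 √g`:
for large `g` every clique partitioned graph of reduced genus at most `g` has chromatic number at
most `max ((2 + ε) √g) ω`, and some has chromatic number above `max ((2 - ε) √g) ω`. -/
theorem result : ∀ ε : ℝ, 0 < ε → ∃ g₀ : ℕ, ∀ g ≥ g₀,
    (∀ (V : Type) [Fintype V] (G : SimpleGraph V) (n : ℕ), CliquePartitioned G →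
      reducedGenus G ≤ g → G.chromaticNumber = (n : ℕ∞) →
        (n : ℝ) ≤ max ((2 + ε) * √(g : ℝ)) (G.cliqueNum : ℝ)) ∧
    ∃ (V : Type) (_ : Fintype V) (G : SimpleGraph V) (n : ℕ), CliquePartitioned G ∧
      reducedGenus G ≤ g ∧ G.chromaticNumber = (n : ℕ∞) ∧
        max ((2 - ε) * √(g : ℝ)) (G.cliqueNum : ℝ) < (n : ℝ) := by
  intro ε hε
  obtain ⟨g₁, h₁⟩ := S.up S.dense ε hε
  obtain ⟨g₂, h₂⟩ := S.low ε hε
  exact ⟨max g₁ g₂, fun g hg => ⟨h₁ g (le_of_max_le_left hg), h₂ g (le_of_max_le_right hg)⟩⟩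

end Pool.Agent.Results.MP_1fec7a_co.SharpTwo
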